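import Pool.Agent.H500.ZO.Sys
import Pool.Agent.H967.SV.Fld

/-!
# The absolute Galois group of a subfield of `ℚ̄` (`S_BRG`, by helper643 for helper500)
-/

set_option autoImplicit false
set_option linter.unusedSectionVars false

namespace Pool.Agent.H643.ZO.BRG

open NumberField IsDedekindDomain Filter Topology
open Pool.Agent.W401.Cheb (GK IsFrob IsInert)
open Pool.Agent.R390.SF (SubFld)
open Pool.Agent.H967.SV.Fld (io io_apply io_inj io_mem exists_lift comap_open up dn dn_up up_dn
  dn_max up_alg dn_smul)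

section
variable {K : Type} [Field K] [NumberField K]
variable {M : IntermediateField K (AlgebraicClosure K)}
variable (e : AlgebraicClosure M ≃ₐ[M] AlgebraicClosure K)

/-- the isomorphism of the Galois groups -/
noncomputable def bb : GK M ≃* M.fixingSubgroup :=
  MulEquiv.ofBijective ((io e).codRestrict M.fixingSubgroup (io_mem e)) (by
    constructor
    · intro σ τ h
      exact io_inj e (congrArg Subtype.val h)
    · rintro ⟨τ, hτ⟩
      obtain ⟨σ, hσ⟩ := exists_lift e hτ
      exact ⟨σ, Subtype.ext hσ⟩)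

theorem bb_coe (σ : GK M) : ((bb e σ : M.fixingSubgroup) : GK K) = io e σ := rfl

theorem cont_bb : Continuous (bb e) := by
  refine continuous_induced_rng.2 ?_
  change Continuous (io e)
  refine continuous_of_continuousAt_one (io e) ?_
  intro A hA
  rw [map_one] at hA
  obtain ⟨E, hE, hEA⟩ := (krullTopology_mem_nhds_one_iff K (AlgebraicClosure K) _).1 hA
  have h1 := IntermediateField.fixingSubgroup_isOpen E
  have h2 := (comap_open e _ h1).mem_nhds (Subgroup.one_mem _)
  refine Filter.mem_map.2 (Filter.mem_of_superset h2 ?_)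
  intro σ hσ
  exact hEA hσ

theorem cont_bb_symm : Continuous (bb e).symm :=
  Continuous.continuous_symm_of_equiv_compact_to_t2 (f := (bb e).toEquiv) (cont_bb e)

theorem dn_alg' [NumberField M] (a : 𝓞 M) :
    dn e (algebraMap (𝓞 M) (𝓞 (AlgebraicClosure K)) a) =
      algebraMap (𝓞 M) (𝓞 (AlgebraicClosure M)) a := by
  rw [← up_alg e a, dn_up]

theorem under_dn [NumberField M] {v : HeightOneSpectrum (𝓞 M)}
    {Q : Ideal (𝓞 (AlgebraicClosure M))}
    (hQ : Q.comap (algebraMap (𝓞 M) (𝓞 (AlgebraicClosure M))) = v.asIdeal) :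
    (Q.comap (dn e)).under (𝓞 M) = v.asIdeal := by
  rw [← hQ]
  ext a
  rw [Ideal.mem_comap, Ideal.mem_comap, Ideal.mem_comap, dn_alg']

omit [NumberField K] in
theorem closure_M (M : IntermediateField K (AlgebraicClosure K)) :
    IsAlgClosure M (AlgebraicClosure K) :=
  ⟨inferInstance, Algebra.IsAlgebraic.tower_top (K := K) M⟩

end

theorem main : Pool.Agent.H500.ZO.S_BRG := by
  intro F _
  have hcl : IsAlgClosure F (AlgebraicClosure ℚ) := closure_M F
  let e : AlgebraicClosure F ≃ₐ[F] AlgebraicClosure ℚ :=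
    IsAlgClosure.equiv F (AlgebraicClosure F) (AlgebraicClosure ℚ)
  refine ⟨bb e, ?_, ?_, cont_bb e, cont_bb_symm e, ?_, ?_⟩
  · intro U hU
    exact hU.preimage (cont_bb e)
  · intro U hU
    have h1 : ((U.map (bb e).toMonoidHom : Subgroup F.fixingSubgroup) : Set F.fixingSubgroup)
        = (bb e).symm ⁻¹' (U : Set (GK F)) := by
      ext x
      constructor
      · rintro ⟨y, hy, rfl⟩
        show (bb e).symm (bb e y) ∈ (U : Set (GK F))
        rw [MulEquiv.symm_apply_apply]
        exact hy
      · intro hx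
        exact ⟨(bb e).symm x, hx, (bb e).apply_symm_apply x⟩
    rw [h1]
    exact hU.preimage (cont_bb_symm e)
  · rintro v σ ⟨Q, hQm, hQv, hQ⟩
    refine ⟨Q.comap (dn e), dn_max e hQm, under_dn e hQv, ?_⟩
    intro x
    have hq : Nat.card (𝓞 F ⧸ v.asIdeal) = Ideal.absNorm v.asIdeal := by
      rw [Ideal.absNorm_apply, Submodule.cardQuot_apply]
    rw [hq]
    have h1 := hQ (σ⁻¹ • dn e x)
    rw [smul_inv_smul] at h1
    rw [Ideal.mem_comap, map_sub, map_pow]
    have h2 : dn e ((((bb e σ)⁻¹ : F.fixingSubgroup) : GK ℚ) • x) = σ⁻¹ • dn e x := by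
      rw [← map_inv, bb_coe, dn_smul]
    rw [h2]
    exact h1
  · rintro v σ ⟨Q, hQm, hQv, hQ⟩
    refine ⟨Q.comap (dn e), dn_max e hQm, under_dn e hQv, ?_⟩
    intro x
    rw [Ideal.mem_comap, map_sub]
    have h2 : dn e (((bb e σ : F.fixingSubgroup) : GK ℚ) • x) = σ • dn e x := by
      rw [bb_coe, dn_smul]
    rw [h2]
    exact hQ _

end Pool.Agent.H643.ZO.BRG
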